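import Pool.Agent.Q274.BKL.Stm

/-! # Project BKL (helper274), job CMP (helper177) -/

set_option autoImplicit false

open Filter
open scoped Topology PeriodPair

namespace Pool.Agent.Q177.BKL

open Pool.Agent.TH936.CW (ek evz Pp Hh)
open Pool.Agent.Y698 (al LD)
open Pool.Agent.Q274.BKL

lemma nw_add4 (P A : QQ) : nw (P + 4 * A) = nw P + 4 * nw A := by
  have h : (4 : QQ) * A = A + A + A + A := by ring
  unfold nw
  rw [h]
  simp only [map_add]
  ring

lemma nz_add4 (P A : QQ) : nz (P + 4 * A) = nz P + 4 * nz A := by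
  have h : (4 : QQ) * A = A + A + A + A := by ring
  unfold nz
  rw [h]
  simp only [map_add]
  ring

lemma nw_iter (P A : QQ) (n : ℕ) : nw^[n] (P + 4 * A) = nw^[n] P + 4 * nw^[n] A := by
  induction n with
  | zero => rfl
  | succ n ih => rw [Function.iterate_succ_apply', Function.iterate_succ_apply',
      Function.iterate_succ_apply', ih, nw_add4]

lemma nz_iter (P A : QQ) (n : ℕ) : nz^[n] (P + 4 * A) = nz^[n] P + 4 * nz^[n] A := by
  induction n with
  | zero => rfl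
  | succ n ih => rw [Function.iterate_succ_apply', Function.iterate_succ_apply',
      Function.iterate_succ_apply', ih, nz_add4]

section ev
variable (L : PeriodPair) (q u z w : ℂ)

lemma Ew_one : Ew L q u z w 1 = 1 := by unfold Ew; rw [map_one]

lemma Ew_add (P P' : QQ) : Ew L q u z w (P + P') = Ew L q u z w P + Ew L q u z w P' := by
  unfold Ew; rw [map_add]

lemma Ew_mul (P P' : QQ) : Ew L q u z w (P * P') = Ew L q u z w P * Ew L q u z w P' := by
  unfold Ew; rw [map_mul]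

lemma Ew_four : Ew L q u z w 4 = 4 := by unfold Ew; rw [map_ofNat]

lemma Ew_X (i : Fin 9) : Ew L q u z w (MvPolynomial.X i) =
    ![Sw L q u z, xw L z, yw L z, kw L q u z, lw L z w, Sw L q 0 w, xw L w,
      yw L w, kw L q 0 w] i := by
  unfold Ew; rw [MvPolynomial.aeval_X]

lemma Ew_rw' : Ew L q u z w rw' = 0 := by
  have h8 := Ew_X L q u z w 8
  have h5 := Ew_X L q u z w 5
  have h6 := Ew_X L q u z w 6
  unfold Ew at h8 h5 h6 ⊢
  unfold rw'
  simp only [map_sub, map_add, map_mul, map_pow, map_one, map_ofNat]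
  rw [h8, h5, h6]
  show 2 * kw L q 0 w - Sw L q 0 w ^ 2 + Sw L q 0 w + xw L w - 1 = 0
  unfold kw
  ring

lemma Ew_rz : Ew L q u z w rz = 0 := by
  have h3 := Ew_X L q u z w 3
  have h0 := Ew_X L q u z w 0
  have h1 := Ew_X L q u z w 1
  unfold Ew at h3 h0 h1 ⊢
  unfold rz
  simp only [map_sub, map_add, map_mul, map_pow, map_one, map_ofNat]
  rw [h3, h0, h1]
  show 2 * kw L q u z - Sw L q u z ^ 2 + Sw L q u z + xw L z - 1 = 0
  unfold kw
  ring

end ev

/-- the points `w` with `w, z + w, z - w` not in the lattice -/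
def Ok (L : PeriodPair) (z w : ℂ) : Prop := w ∉ L.lattice ∧ z + w ∉ L.lattice ∧ z - w ∉ L.lattice

lemma lat_open (L : PeriodPair) : IsOpen {w : ℂ | w ∉ L.lattice} :=
  (L.isClosed_lattice).isOpen_compl

lemma ok_near_w (L : PeriodPair) {z w : ℂ} (h : Ok L z w) : ∀ᶠ w' in 𝓝 w, Ok L z w' := by
  have h1 : ∀ᶠ w' in 𝓝 w, w' ∉ L.lattice := (lat_open L).mem_nhds h.1
  have h2 : ∀ᶠ w' in 𝓝 w, z + w' ∉ L.lattice := by
    have hc : Tendsto (fun w' : ℂ => z + w') (𝓝 w) (𝓝 (z + w)) := tendsto_const_nhds.add tendsto_id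
    exact hc.eventually ((lat_open L).mem_nhds h.2.1)
  have h3 : ∀ᶠ w' in 𝓝 w, z - w' ∉ L.lattice := by
    have hc : Tendsto (fun w' : ℂ => z - w') (𝓝 w) (𝓝 (z - w)) := tendsto_const_nhds.sub tendsto_id
    exact hc.eventually ((lat_open L).mem_nhds h.2.2)
  filter_upwards [h1, h2, h3] with w' a b c using ⟨a, b, c⟩

lemma ok_near_z (L : PeriodPair) {z w : ℂ} (hz : z ∉ L.lattice) (h : Ok L z w) :
    ∀ᶠ z' in 𝓝 z, z' ∉ L.lattice ∧ Ok L z' w := by
  have h1 : ∀ᶠ z' in 𝓝 z, z' ∉ L.lattice := (lat_open L).mem_nhds hz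
  have h2 : ∀ᶠ z' in 𝓝 z, z' + w ∉ L.lattice := by
    have hc : Tendsto (fun z' : ℂ => z' + w) (𝓝 z) (𝓝 (z + w)) := tendsto_id.add tendsto_const_nhds
    exact hc.eventually ((lat_open L).mem_nhds h.2.1)
  have h3 : ∀ᶠ z' in 𝓝 z, z' - w ∉ L.lattice := by
    have hc : Tendsto (fun z' : ℂ => z' - w) (𝓝 z) (𝓝 (z - w)) := tendsto_id.sub tendsto_const_nhds
    exact hc.eventually ((lat_open L).mem_nhds h.2.2)
  filter_upwards [h1, h2, h3] with z' a b c using ⟨a, h.1, b, c⟩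

lemma ok_near_zero (L : PeriodPair) {z : ℂ} (hz : z ∉ L.lattice) : ∀ᶠ w in 𝓝[≠] (0 : ℂ), Ok L z w := by
  have h1 : ∀ᶠ w in 𝓝[≠] (0 : ℂ), w ∉ L.lattice := by
    have hd : IsOpen {w : ℂ | w ∉ (L.lattice : Set ℂ) \ {0}} := by
      have : IsClosed ((L.lattice : Set ℂ) \ {0}) :=
        L.isClosed_of_subset_lattice Set.diff_subset
      exact this.isOpen_compl
    have h2 : ∀ᶠ w in 𝓝 (0 : ℂ), w ∉ (L.lattice : Set ℂ) \ {0} :=
      hd.mem_nhds (fun h => h.2 rfl)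
    filter_upwards [h2.filter_mono nhdsWithin_le_nhds, self_mem_nhdsWithin] with w h3 h4 h5
    exact h3 ⟨h5, h4⟩
  have h2 : ∀ᶠ w in 𝓝 (0 : ℂ), z + w ∉ L.lattice := by
    have hc : Tendsto (fun w' : ℂ => z + w') (𝓝 0) (𝓝 (z + 0)) := tendsto_const_nhds.add tendsto_id
    refine hc.eventually ((lat_open L).mem_nhds ?_)
    rwa [Set.mem_ofPred_eq, add_zero]
  have h3 : ∀ᶠ w in 𝓝 (0 : ℂ), z - w ∉ L.lattice := by
    have hc : Tendsto (fun w' : ℂ => z - w') (𝓝 0) (𝓝 (z - 0)) := tendsto_const_nhds.sub tendsto_id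
    refine hc.eventually ((lat_open L).mem_nhds ?_)
    rwa [Set.mem_ofPred_eq, sub_zero]
  filter_upwards [h1, h2.filter_mono nhdsWithin_le_nhds, h3.filter_mono nhdsWithin_le_nhds] with
    w a b c using ⟨a, b, c⟩

/-- the comparison of the mixed derivatives -/
lemma deriv_cmp (hEV : S_EV) (hCOMM : S_COMM) (hALG : S_ALG) (hADD : S_ADD) (hDER : S_DER)
    (hKD : S_KD) {L : PeriodPair} {Ω q : ℂ} (hD : LD L Ω) (u : ℂ) {z : ℂ} (hz : z ∉ L.lattice)
    {n : ℕ} (hn : Even n) (hn2 : 2 ≤ n) : ∃ P : QQ, ∀ w : ℂ, Ok L z w →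
    iteratedDeriv n (fun w' => iteratedDeriv n (fun z' => Kw L q u z' w') z) w =
      iteratedDeriv 2 (fun w' => iteratedDeriv 2 (fun z' => Kw L q u z' w') z) w +
        4 * (Ew L q u z w P * Kw L q u z w) := by
  obtain ⟨A, B, hA⟩ := hALG.1 n hn hn2
  obtain ⟨A', B', hA'⟩ := hALG.2 n hn hn2
  refine ⟨nw^[n] A + nz^[2] A', fun w hw => ?_⟩
  have hev := hEV hADD hDER hKD L Ω q hD u
  -- the derivatives of the function of Kronecker
  have dz : ∀ (m : ℕ) (w' : ℂ), Ok L z w' → iteratedDeriv m (fun z' => Kw L q u z' w') z =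
      Ew L q u z w' (nz^[m] 1) * Kw L q u z w' := by
    intro m w' h
    have h1 := (hev z w' hz h.1 h.2.1 h.2.2).2.1 1 m
    simp only [Ew_one, one_mul] at h1
    exact h1
  have dw : ∀ (m : ℕ) (z' : ℂ), z' ∉ L.lattice → Ok L z' w →
      iteratedDeriv m (fun w' => Kw L q u z' w') w = Ew L q u z' w (nw^[m] 1) * Kw L q u z' w := by
    intro m z' hz' h
    have h1 := (hev z' w hz' h.1 h.2.1 h.2.2).2.2 1 m
    simp only [Ew_one, one_mul] at h1
    exact h1
  have hb : iteratedDeriv n (fun w' => iteratedDeriv n (fun z' => Kw L q u z' w') z) w =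
      Ew L q u z w (nw^[n] (nz^[2] 1 + 4 * A)) * Kw L q u z w := by
    have h1 : (fun w' => iteratedDeriv n (fun z' => Kw L q u z' w') z) =ᶠ[𝓝 w]
        fun w' => Ew L q u z w' (nz^[2] 1 + 4 * A) * Kw L q u z w' := by
      filter_upwards [ok_near_w L hw] with w' h
      rw [dz n w' h, hA, Ew_add, Ew_mul L q u z w' rw' B, Ew_rw', zero_mul, add_zero]
    rw [h1.iteratedDeriv_eq]
    exact (hev z w hz hw.1 hw.2.1 hw.2.2).2.2 _ n
  have hc : iteratedDeriv n (fun w' => iteratedDeriv 2 (fun z' => Kw L q u z' w') z) w =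
      Ew L q u z w (nw^[n] (nz^[2] 1)) * Kw L q u z w := by
    have h1 : (fun w' => iteratedDeriv 2 (fun z' => Kw L q u z' w') z) =ᶠ[𝓝 w]
        fun w' => Ew L q u z w' (nz^[2] 1) * Kw L q u z w' := by
      filter_upwards [ok_near_w L hw] with w' h
      rw [dz 2 w' h]
    rw [h1.iteratedDeriv_eq]
    exact (hev z w hz hw.1 hw.2.1 hw.2.2).2.2 _ n
  have hd : iteratedDeriv 2 (fun z' => iteratedDeriv n (fun w' => Kw L q u z' w') w) z =
      Ew L q u z w (nz^[2] (nw^[2] 1 + 4 * A')) * Kw L q u z w := by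
    have h1 : (fun z' => iteratedDeriv n (fun w' => Kw L q u z' w') w) =ᶠ[𝓝 z]
        fun z' => Ew L q u z' w (nw^[2] 1 + 4 * A') * Kw L q u z' w := by
      filter_upwards [ok_near_z L hz hw] with z' h
      rw [dw n z' h.1 h.2, hA', Ew_add, Ew_mul L q u z' w rz B', Ew_rz, zero_mul, add_zero]
    rw [h1.iteratedDeriv_eq]
    exact (hev z w hz hw.1 hw.2.1 hw.2.2).2.1 _ 2
  have he : iteratedDeriv 2 (fun z' => iteratedDeriv 2 (fun w' => Kw L q u z' w') w) z =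
      Ew L q u z w (nz^[2] (nw^[2] 1)) * Kw L q u z w := by
    have h1 : (fun z' => iteratedDeriv 2 (fun w' => Kw L q u z' w') w) =ᶠ[𝓝 z]
        fun z' => Ew L q u z' w (nw^[2] 1) * Kw L q u z' w := by
      filter_upwards [ok_near_z L hz hw] with z' h
      rw [dw 2 z' h.1 h.2]
    rw [h1.iteratedDeriv_eq]
    exact (hev z w hz hw.1 hw.2.1 hw.2.2).2.1 _ 2
  have c1 := hCOMM L q u z w n 2 hz hw.1
  have c2 := hCOMM L q u z w 2 2 hz hw.1
  rw [hb, c2, he, nw_iter, Ew_add, Ew_mul, Ew_four, Ew_add]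
  rw [hc, hd, nz_iter, Ew_add, Ew_mul, Ew_four] at c1
  linear_combination c1

/-- the values of the polynomials are integral Laurent series -/
lemma ir_Ew (hIR1 : S_IR1) {Γ : Type} [LinearOrderedCommGroupWithZero Γ] {v : Valuation ℂ Γ}
    {T : ℂ → ℂ} (hT : Uni T) {L : PeriodPair} {q u z : ℂ} (h0 : v (Sw L q u z) ≤ 1)
    (h1 : v (xw L z) ≤ 1) (h2 : v (yw L z) ≤ 1) (h3 : v (kw L q u z) ≤ 1)
    (h4 : IR v T (fun w => lw L z w)) (h5 : IR v T (Sw L q 0)) (h6 : IR v T (xw L))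
    (h7 : IR v T (yw L)) (h8 : IR v T (kw L q 0)) (P : QQ) :
    IR v T (fun w => Ew L q u z w P) := by
  obtain ⟨hc, -, ha, hm, -⟩ := hIR1 Γ v T hT
  induction P using MvPolynomial.induction_on with
  | C a =>
    have e : (fun w => Ew L q u z w (MvPolynomial.C a)) = fun _ => (a : ℂ) := by
      funext w
      unfold Ew
      rw [MvPolynomial.aeval_C]
      rfl
    rw [e]
    refine hc _ ?_
    exact Pool.Agent.TH936.PU.v_int a
  | add p p' ih ih' =>
    have e : (fun w => Ew L q u z w (p + p')) = fun w => Ew L q u z w p + Ew L q u z w p' := by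
      funext w
      rw [Ew_add]
    rw [e]
    exact ha _ _ ih ih'
  | mul_X p i ih =>
    have e : (fun w => Ew L q u z w (p * MvPolynomial.X i)) =
        fun w => Ew L q u z w p * Ew L q u z w (MvPolynomial.X i) := by
      funext w
      rw [Ew_mul]
    rw [e]
    refine hm _ _ ih ?_
    have e2 : (fun w => Ew L q u z w (MvPolynomial.X i)) = fun w =>
        ![Sw L q u z, xw L z, yw L z, kw L q u z, lw L z w, Sw L q 0 w, xw L w,
          yw L w, kw L q 0 w] i := by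
      funext w
      rw [Ew_X]
    rw [e2]
    fin_cases i
    · exact hc _ h0
    · exact hc _ h1
    · exact hc _ h2
    · exact hc _ h3
    · exact h4
    · exact h5
    · exact h6
    · exact h7
    · exact h8

theorem t_CMP : S_CMP := by
  intro hEV hCOMM hCOEF hALG hADD hDER hKD hIR1 hIR2 hIR4 hXY hF1 hF2 hIRS hIRK hZB hBL hIR3 hIR5 hKP
    L Ω q hD Γ _ v hv z n hz hn hn2
  obtain ⟨P, hP⟩ := deriv_cmp hEV hCOMM hALG hADD hDER hKD (q := q) hD.ld ((starRingEnd ℂ) z) hz.ne hn hn2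
  obtain ⟨hT, hxy⟩ := hXY hIR1 hIR2 hIR3 L Ω hD.ld
  obtain ⟨hx, hy, -⟩ := hxy Γ v
  obtain ⟨f1, f2⟩ := hF1 L Ω hD.ld Γ v hv z hz
  obtain ⟨f3, f4⟩ := hF2 hZB hBL hF1 L Ω q hD Γ v hv z hz
  obtain ⟨s1, s2, s3⟩ := hIRS hZB hBL hIR1 hIR2 hIR3 hIR5 hXY L Ω q hD Γ v hv
  have hK := hIRK hADD hKP hIR1 hIR3 hXY hF1 hZB hBL hF2 hIR2 hIR5 hIRS L Ω q hD Γ v hv z hz
  have hE := ir_Ew hIR1 hT (q := q) f3 f1.le f2 f4 (s3 z hz.ne f1.le f2) s1 hx hy s2 P
  have hg := (hIR1 Γ v (Tw L) hT).2.2.2.1 _ _ hE hK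
  have hlim : Tendsto (fun w => Ew L q ((starRingEnd ℂ) z) z w P * Kw L q ((starRingEnd ℂ) z) z w)
      (𝓝[≠] 0) (𝓝 ((Mk L q n z - Mk L q 2 z) / 4)) := by
    have c1 := hCOEF L q ((starRingEnd ℂ) z) z n hz.ne (by omega)
    have c2 := hCOEF L q ((starRingEnd ℂ) z) z 2 hz.ne (by omega)
    have c3 := (c1.sub c2).div_const 4
    refine c3.congr' ?_
    filter_upwards [ok_near_zero L hz.ne] with w hw
    rw [hP w hw]
    ring
  have hlim' : Tendsto (fun w => (Ew L q ((starRingEnd ℂ) z) z w P *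
      Kw L q ((starRingEnd ℂ) z) z w) * w ^ (0 : ℤ)) (𝓝[≠] 0) (𝓝 ((Mk L q n z - Mk L q 2 z) / 4)) := by
    refine hlim.congr fun w => ?_
    rw [zpow_zero, mul_one]
  have hfin := hIR2 Γ v (Tw L) _ hT hg 0 _ hlim'
  have e : Mk L q n z - Mk L q 2 z = 4 * ((Mk L q n z - Mk L q 2 z) / 4) := by ring
  rw [e, map_mul]
  exact mul_le_of_le_one_right' hfin

end Pool.Agent.Q177.BKL
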