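import Pool.Agent.Q274.BKL.Stm2

/-! # Project BKL (helper274), job WSUB (helper177)

The weighted sums of functions with a distribution relation. -/

set_option autoImplicit false
set_option linter.unusedSectionVars false
set_option linter.unusedVariables false

open Filter
open scoped Topology PeriodPair

namespace Pool.Agent.Q177.BKL

open H667R3 Pool.Agent.TH936.CM Pool.Agent.TH936.PU
open Pool.Agent.W192.HK (sp nm)
open Pool.Agent.TH936.CW (ek evz Pp Hh ek_per)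
open Pool.Agent.Y698 (RR aR bR fR al bl LD e7 nR nI Inq qch psi GG fin_quot e7_eq_zero e7_per e7_mul e7_sq
  not_mem_of_cop fR_ne)
open Pool.Agent.Y698.SG
open Pool.Agent.Q274.BKL

variable {L : PeriodPair} {Ω : ℂ}

/-- a function with a distribution relation -/
structure DR (Ω : ℂ) (G : ℂ → ℂ) (κ : RR → ℂ) : Prop where
  per : ∀ n : RR, Gd n → ∀ x y : RR, x - y ∈ sp n → G (Ω * x / (n : ℂ)) = G (Ω * y / (n : ℂ))
  dist : ∀ n c : RR, Gd n → Gd c → ∀ [Fintype (RR ⧸ sp c)] (y : RR),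
    ∑ t : RR ⧸ sp c, G (Ω * ((y + n * t.out : RR) : ℂ) / ((c * n : RR) : ℂ)) = κ c * G (Ω * y / (n : ℂ))

/-- the weighted sum -/
noncomputable def Bq (Ω : ℂ) (G : ℂ → ℂ) (n : RR) (φ : RR → ℂ) : ℂ :=
  ∑ᶠ x : RR ⧸ sp n, φ x.out * G (Ω * x.out / (n : ℂ))

lemma Bw_eq_Bq [Fintype (RR ⧸ sp fR)] (Ω : ℂ) (E : ℂ → ℂ) (n : RR) (φ : RR → ℂ) :
    Bw Ω E n φ = Bq Ω (Gw Ω E) n φ := rfl

lemma Bq_eq (G : ℂ → ℂ) (n : RR) [Fintype (RR ⧸ sp n)] (φ : RR → ℂ) :
    Bq Ω G n φ = ∑ x : RR ⧸ sp n, φ x.out * G (Ω * x.out / (n : ℂ)) :=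
  finsum_eq_sum_of_fintype _

variable {G : ℂ → ℂ} {κ : RR → ℂ}

lemma Bq_term (hG : DR Ω G κ) {n : RR} (hn : Gd n) {φ : RR → ℂ} (hφ : Pe n φ) {x y : RR}
    (h : x - y ∈ sp n) : φ x * G (Ω * x / (n : ℂ)) = φ y * G (Ω * y / (n : ℂ)) := by
  rw [hφ _ _ h, hG.per n hn x y h]

theorem Bq_dist (hG : DR Ω G κ) {n q : RR} (hn : Gd n) (hq : Gd q) {φ : RR → ℂ}
    (hφ : Pe n φ) : Bq Ω G (q * n) φ = κ q * Bq Ω G n φ := by
  have hqn := hq.mul hn
  have f1 := fin_quot hn.ne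
  have f2 := fin_quot hq.ne
  have f3 := fin_quot hqn.ne
  let _ : Fintype (RR ⧸ sp n) := Fintype.ofFinite _
  let _ : Fintype (RR ⧸ sp q) := Fintype.ofFinite _
  let _ : Fintype (RR ⧸ sp (q * n)) := Fintype.ofFinite _
  have hφ' : Pe (q * n) φ := hφ.mono (Dvd.intro_left q rfl)
  rw [Bq_eq, Bq_eq]
  have hb := bij_mul (R := RR) (a := q) (f := n) hn.ne
  rw [sum_rep _ hb (fun x : RR => φ x * G (Ω * x / ((q * n : RR) : ℂ)))
    (fun x y h => Bq_term hG hqn hφ' h), Fintype.sum_prod_type, Finset.mul_sum]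
  refine Finset.sum_congr rfl fun y _ => ?_
  have h1 := hG.dist n q hn hq y.out
  have h2 : ∀ t : RR ⧸ sp q, φ (y.out + n * t.out) = φ y.out := by
    intro t
    apply hφ
    rw [add_sub_cancel_left, Ideal.mem_span_singleton']
    exact ⟨t.out, mul_comm _ _⟩
  simp only [h2]
  rw [← Finset.mul_sum, h1]
  ring

open Classical in
/-- the multiples of `q` -/
theorem Bq_mult (hG : DR Ω G κ) {n q : RR} (hn : Gd n) (hq : Gd q) {φ : RR → ℂ} (hφ : Pe n φ) :
    Bq Ω G (q * n) (fun m => if m ∈ sp q then φ m else 0) =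
      Bq Ω G n (fun m => φ (q * m)) := by
  have hqn := hq.mul hn
  have f1 := fin_quot hn.ne
  have f3 := fin_quot hqn.ne
  let _ : Fintype (RR ⧸ sp n) := Fintype.ofFinite _
  let _ : Fintype (RR ⧸ sp (q * n)) := Fintype.ofFinite _
  have hφ' : Pe (q * n) φ := hφ.mono (Dvd.intro_left q rfl)
  have hq0' : (q : ℂ) ≠ 0 := coe_ne hq.ne
  have hn0' : (n : ℂ) ≠ 0 := coe_ne hn.ne
  rw [Bq_eq, Bq_eq]
  -- the injection
  obtain ⟨g, hg⟩ : ∃ g : RR ⧸ sp n → RR ⧸ sp (q * n), g = fun y => Ideal.Quotient.mk _ (q * y.out) :=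
    ⟨_, rfl⟩
  have hginj : Function.Injective g := by
    intro y y' h
    rw [hg] at h
    have h1 : q * y.out - q * y'.out ∈ sp (q * n) := by
      rw [← Ideal.Quotient.mk_eq_mk_iff_sub_mem]
      exact h
    rw [Ideal.mem_span_singleton'] at h1
    obtain ⟨b, hb⟩ := h1
    apply mk_eq
    rw [Ideal.mem_span_singleton']
    refine ⟨b, ?_⟩
    apply mul_left_cancel₀ hq.ne
    linear_combination hb
  have hterm : ∀ y : RR ⧸ sp n, (if (g y).out ∈ sp q then φ (g y).out else 0) *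
      G (Ω * (g y).out / ((q * n : RR) : ℂ)) =
      φ (q * y.out) * G (Ω * y.out / (n : ℂ)) := by
    intro y
    have h1 : (g y).out - q * y.out ∈ sp (q * n) := by
      have := neg_mem (out_mk (sp (q * n)) (q * y.out))
      rw [neg_sub] at this
      rw [hg]
      exact this
    have h2 : (g y).out ∈ sp q := by
      have h3 : (g y).out - q * y.out ∈ sp q := by
        rw [Ideal.mem_span_singleton'] at h1 ⊢
        obtain ⟨b, hb⟩ := h1
        exact ⟨b * n, by linear_combination hb⟩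
      have h4 := add_mem h3 (Ideal.mul_mem_right y.out (sp q) (Ideal.mem_span_singleton_self q))
      rwa [sub_add_cancel] at h4
    rw [if_pos h2, Bq_term hG hqn hφ' h1]
    congr 2
    push_cast
    field_simp
  rw [← Finset.sum_congr rfl (fun y _ => hterm y)]
  rw [← Finset.sum_image (s := Finset.univ) (g := g) (f := fun x : RR ⧸ sp (q * n) =>
    (if x.out ∈ sp q then φ x.out else 0) *
      G (Ω * x.out / ((q * n : RR) : ℂ))) (fun a _ b _ h => hginj h)]
  symm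
  refine Finset.sum_subset (Finset.subset_univ _) fun x _ hx => ?_
  rw [if_neg, zero_mul]
  intro hd
  apply hx
  rw [Ideal.mem_span_singleton'] at hd
  obtain ⟨c, hc⟩ := hd
  rw [Finset.mem_image]
  refine ⟨Ideal.Quotient.mk _ c, Finset.mem_univ _, ?_⟩
  rw [hg]
  show Ideal.Quotient.mk _ (q * (Ideal.Quotient.mk (sp n) c).out) = x
  conv_rhs => rw [← Ideal.Quotient.mk_out x]
  rw [Ideal.Quotient.mk_eq_mk_iff_sub_mem]
  have h1 := out_mk (sp n) c
  rw [Ideal.mem_span_singleton'] at h1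
  obtain ⟨b, hb⟩ := h1
  rw [Ideal.mem_span_singleton']
  exact ⟨-b, by linear_combination -q * hb - hc⟩

open Classical in
/-- removing a prime -/
theorem Bq_rem (hG : DR Ω G κ) {n q : RR} (hn : Gd n) (hq : Gd q) {k : ℂ} {φ : RR → ℂ}
    (hφ : Pe n φ) (hφq : ∀ m : RR, φ (q * m) = k * φ m) :
    Bq Ω G (q * n) (fun m => if m ∈ sp q then 0 else φ m) =
      (κ q - k) * Bq Ω G n φ := by
  have hqn := hq.mul hn
  have f1 := fin_quot hn.ne
  let _ : Fintype (RR ⧸ sp n) := Fintype.ofFinite _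
  have f3 := fin_quot hqn.ne
  let _ : Fintype (RR ⧸ sp (q * n)) := Fintype.ofFinite _
  have h1 := Bq_dist hG hn hq hφ
  have h2 := Bq_mult hG hn hq hφ
  simp only [hφq] at h2
  have h3 : Bq Ω G (q * n) (fun m => if m ∈ sp q then 0 else φ m) =
      Bq Ω G (q * n) φ - Bq Ω G (q * n) (fun m => if m ∈ sp q then φ m else 0) := by
    rw [Bq_eq, Bq_eq, Bq_eq, ← Finset.sum_sub_distrib]
    refine Finset.sum_congr rfl fun x _ => ?_
    split_ifs <;> ring
  have h4 : Bq Ω G n (fun m => k * φ m) = k * Bq Ω G n φ := by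
    rw [Bq_eq, Bq_eq, Finset.mul_sum]
    exact Finset.sum_congr rfl fun x _ => by ring
  rw [h3, h1, h2, h4]
  ring

lemma Bq_smul (G : ℂ → ℂ) {n : RR} (hn : n ≠ 0) (c : ℂ) (φ : RR → ℂ) :
    Bq Ω G n (fun m => c * φ m) = c * Bq Ω G n φ := by
  have f1 := fin_quot hn
  let _ : Fintype (RR ⧸ sp n) := Fintype.ofFinite _
  rw [Bq_eq, Bq_eq, Finset.mul_sum]
  exact Finset.sum_congr rfl fun x _ => by ring

lemma Bq_sum (G : ℂ → ℂ) {n : RR} (hn : n ≠ 0) {ι : Type*} (s : Finset ι) (φ : ι → RR → ℂ) :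
    Bq Ω G n (fun m => ∑ i ∈ s, φ i m) = ∑ i ∈ s, Bq Ω G n (φ i) := by
  have f1 := fin_quot hn
  let _ : Fintype (RR ⧸ sp n) := Fintype.ofFinite _
  simp only [Bq_eq]
  rw [Finset.sum_comm]
  exact Finset.sum_congr rfl fun x _ => by rw [Finset.sum_mul]

/-- removing several primes -/
theorem Bq_rems {ι : Type} (hG : DR Ω G κ) {n : RR} (hn : Gd n) {φ : RR → ℂ}
    (hφ : Pe n φ) {π : ι → RR} (k : ι → ℂ) (B : Finset ι) (hB : Fam B π)
    (hκ : ∀ i ∈ B, Mu (π i) φ (k i)) :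
    Bq Ω G ((∏ i ∈ B, π i) * n) (fun m => φ m * ∏ i ∈ B, tr (π i) m) =
      (∏ i ∈ B, (κ (π i) - k i)) * Bq Ω G n φ := by
  classical
  induction B using Finset.induction_on with
  | empty => simp
  | insert q B hq ih =>
    have hBs : Fam B π := hB.mono (Finset.subset_insert _ _)
    have ih' := ih hBs fun p hp => hκ p (Finset.mem_insert_of_mem hp)
    have h1 := hB.pd q (Finset.mem_insert_self _ _)
    rw [Finset.prod_insert hq, mul_assoc, Finset.prod_insert hq, mul_assoc, ← ih']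
    have hBg : Gd ((∏ i ∈ B, π i) * n) := (Gd.prod fun i hi => (hBs.pd i hi).gd).mul hn
    have e : (fun m : RR => φ m * ∏ i ∈ insert q B, tr (π i) m) =
        fun m : RR => if m ∈ sp (π q) then 0 else φ m * ∏ i ∈ B, tr (π i) m := by
      funext m
      rw [Finset.prod_insert hq]
      unfold tr
      split_ifs <;> ring
    rw [e]
    have hne : ∀ p ∈ B, p ≠ q := fun p hp h => hq (h ▸ hp)
    refine Bq_rem hG hBg h1.gd ?_ ?_
    · exact (hφ.mono (Dvd.intro_left _ rfl)).mul ((Pe.prod fun p _ => tr_per (π p)).mono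
        (Dvd.intro _ rfl))
    · have h2 : Mu (π q) (fun m => φ m * ∏ i ∈ B, tr (π i) m) (k q * ∏ i ∈ B, (1 : ℂ)) := by
        refine (hκ q (Finset.mem_insert_self _ _)).mul (Mu.prod fun p hp m => ?_)
        rw [one_mul]
        exact tr_mul (hBs.pd p hp).pr (hB.ne q (Finset.mem_insert_self _ _) p
          (Finset.mem_insert_of_mem hp) (hne p hp).symm) m
      intro m
      have h3 := h2 m
      rw [Finset.prod_const_one, mul_one] at h3
      exact h3

/-- the sum over the subsets -/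
theorem Bq_subsets {ι : Type} [DecidableEq ι] (hG : DR Ω G κ) {n : RR} (hn : Gd n) {φ : RR → ℂ}
    (hφ : Pe n φ) {π : ι → RR} (S : Finset ι) (hS : Fam S π) (hS1 : ∀ i ∈ S, Mu (π i) φ 1) :
    ∑ A ∈ S.powerset, (∏ i ∈ S \ A, (κ (π i) - ∏ j ∈ A, sy (π j) (π i))) *
      Bq Ω G ((∏ i ∈ A, π i) * n) (fun m => φ m * ∏ i ∈ A, sy (π i) m) =
    2 ^ S.card * Bq Ω G ((∏ i ∈ S, π i) * n) (fun m => φ m * ∏ i ∈ S, hc (π i) m) := by
  have hSg : Gd ((∏ i ∈ S, π i) * n) := (Gd.prod fun i hi => (hS.pd i hi).gd).mul hn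
  have h1 : ∀ A ∈ S.powerset, (∏ i ∈ S \ A, (κ (π i) - ∏ j ∈ A, sy (π j) (π i))) *
      Bq Ω G ((∏ i ∈ A, π i) * n) (fun m => φ m * ∏ i ∈ A, sy (π i) m) =
      Bq Ω G ((∏ i ∈ S, π i) * n)
        (fun m => φ m * ((∏ i ∈ A, sy (π i) m) * ∏ i ∈ S \ A, tr (π i) m)) := by
    intro A hA
    rw [Finset.mem_powerset] at hA
    have hAg : Gd ((∏ i ∈ A, π i) * n) := (Gd.prod fun i hi => (hS.pd i (hA hi)).gd).mul hn
    rw [← Bq_rems hG hAg ?_ _ (S \ A) (hS.mono Finset.sdiff_subset) ?_]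
    · rw [← mul_assoc, Finset.prod_sdiff hA]
      congr 1
      funext m
      ring
    · exact (hφ.mono (Dvd.intro_left _ rfl)).mul ((Pe.prod fun p _ => sy_per (π p)).mono
        (Dvd.intro _ rfl))
    · intro i hi
      rw [Finset.mem_sdiff] at hi
      have h2 := (hS1 i hi.1).mul (Mu.prod (q := π i) (S := A) (f := fun j => sy (π j))
        (κ := fun j => sy (π j) (π i)) fun j hj m => (hS.pd j (hA hj)).mul _ _)
      rw [one_mul] at h2
      exact h2
  rw [Finset.sum_congr rfl h1, ← Bq_sum G hSg.ne, ← Bq_smul G hSg.ne]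
  congr 1
  funext m
  rw [← Finset.mul_sum]
  have h2 : ∏ i ∈ S, (sy (π i) m + tr (π i) m) =
      ∑ A ∈ S.powerset, (∏ i ∈ A, sy (π i) m) * ∏ i ∈ S \ A, tr (π i) m :=
    Finset.prod_add _ _ _
  have h3 : ∏ i ∈ S, (sy (π i) m + tr (π i) m) = 2 ^ S.card * ∏ i ∈ S, hc (π i) m := by
    rw [← Finset.prod_const, ← Finset.prod_mul_distrib]
    refine Finset.prod_congr rfl fun q _ => ?_
    unfold hc
    ring
  rw [← h2, h3]
  ring

/-- the points `Ω y / √-7 + Ω x / n`, `y` not a multiple of `√-7` -/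
lemma pt_not_mem (hL : IsLat L RR Ω) {n : RR} (hn : Gd n) {y : RR} (hy : y ∉ sp fR) (x : RR) :
    Ω * y / fR + Ω * x / (n : ℂ) ∉ L.lattice := by
  intro h
  have hn0 : (n : ℂ) ≠ 0 := coe_ne hn.ne
  have hf0 : (fR : ℂ) ≠ 0 := coe_ne fR_ne
  have h1 := hL.mul n _ h
  have h2 : Ω * ((n * y : RR) : ℂ) / (fR : ℂ) ∈ L.lattice := by
    have h3 := sub_mem h1 (hL.mem_mul x)
    have h4 : (n : ℂ) * (Ω * y / fR + Ω * x / (n : ℂ)) - Ω * x = Ω * ((n * y : RR) : ℂ) / (fR : ℂ) := by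
      push_cast
      field_simp
      ring
    rw [h4] at h3
    exact h3
  rw [div_mem_iff hL fR_ne, Ideal.mem_span_singleton] at h2
  apply hy
  rw [Ideal.mem_span_singleton]
  exact hn.cop.dvd_of_dvd_mul_left h2

/-- the functions with a distribution relation away from the lattice -/
structure DE (L : PeriodPair) (Ω : ℂ) (E : ℂ → ℂ) (κ : RR → ℂ) : Prop where
  per : ∀ z w : ℂ, z ∉ L.lattice → w - z ∈ L.lattice → E w = E z
  dist : ∀ c : RR, c ≠ 0 → ∀ [Fintype (RR ⧸ sp c)] (z : ℂ), (c : ℂ) * z ∉ L.lattice →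
    ∑ t : RR ⧸ sp c, E (z + Ω * t.out / c) = κ c * E (c * z)

lemma Gw_term (hL : IsLat L RR Ω) {E : ℂ → ℂ} (hE : DE L Ω E κ) {n : RR} (hn : Gd n) (x : RR)
    {y y' : RR} (h : y - y' ∈ sp fR) :
    e7 y * E (Ω * y / fR + Ω * x / (n : ℂ)) = e7 y' * E (Ω * y' / fR + Ω * x / (n : ℂ)) := by
  rw [e7_per h]
  by_cases hy : y' ∈ sp fR
  · rw [e7_eq_zero.2 hy, zero_mul, zero_mul]
  · congr 1
    refine hE.per _ _ (pt_not_mem hL hn hy x) ?_
    have h1 := (div_mem_iff hL fR_ne (y - y')).2 h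
    have e : (Ω * y / fR + Ω * x / (n : ℂ)) - (Ω * y' / fR + Ω * x / (n : ℂ)) =
        Ω * ((y - y' : RR) : ℂ) / (fR : ℂ) := by
      push_cast
      ring
    rw [e]
    exact h1

lemma Gw_mul (hL : IsLat L RR Ω) {E : ℂ → ℂ} (hE : DE L Ω E κ) [Fintype (RR ⧸ sp fR)] {c : RR}
    (hc : IsCoprime fR c) {n : RR} (hn : Gd n) (x : RR) :
    ∑ y : RR ⧸ sp fR, e7 y.out * E (c * (Ω * y.out / fR) + Ω * x / (n : ℂ)) =
      e7 c * Gw Ω E (Ω * x / (n : ℂ)) := by
  have hcm := not_mem_of_cop hc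
  have hbij : Function.Bijective (fun y : RR ⧸ sp fR => Ideal.Quotient.mk (sp fR) (c * y.out)) := by
    have hu : IsUnit (Ideal.Quotient.mk (sp fR) c) := by
      obtain ⟨a, b, hab⟩ := hc
      refine IsUnit.of_mul_eq_one (Ideal.Quotient.mk (sp fR) b) ?_
      rw [← map_mul, ← map_one (Ideal.Quotient.mk (sp fR)), Ideal.Quotient.mk_eq_mk_iff_sub_mem,
        Ideal.mem_span_singleton']
      exact ⟨-a, by linear_combination -hab⟩
    obtain ⟨u, hu⟩ := hu
    have e1 : (fun y : RR ⧸ sp fR => Ideal.Quotient.mk (sp fR) (c * y.out)) =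
        fun y => (Units.mulLeft u) y := by
      funext y
      rw [map_mul, Ideal.Quotient.mk_out, Units.mulLeft_apply, hu]
    rw [e1]
    exact (Units.mulLeft u).bijective
  unfold Gw
  rw [sum_rep _ hbij (fun r : RR => e7 r * E (Ω * r / fR + Ω * x / (n : ℂ)))
    (fun a b h => Gw_term hL hE hn x h), Finset.mul_sum]
  refine Finset.sum_congr rfl fun y _ => ?_
  rw [e7_mul]
  have e2 : (Ω * ((c * y.out : RR) : ℂ) / fR + Ω * x / (n : ℂ)) =
      c * (Ω * y.out / fR) + Ω * x / (n : ℂ) := by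
    push_cast
    ring
  rw [e2]
  linear_combination -(e7 y.out * E (c * (Ω * y.out / fR) + Ω * x / (n : ℂ))) * e7_sq hcm

theorem DE.dr (hL : IsLat L RR Ω) {E : ℂ → ℂ} (hE : DE L Ω E κ) [Fintype (RR ⧸ sp fR)] :
    DR Ω (Gw Ω E) (fun c => κ c * e7 c) where
  per := by
    intro n hn x x' h
    unfold Gw
    refine Finset.sum_congr rfl fun y _ => ?_
    by_cases hy : y.out ∈ sp fR
    · rw [e7_eq_zero.2 hy, zero_mul, zero_mul]
    · congr 1
      refine hE.per _ _ (pt_not_mem hL hn hy x') ?_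
      have h1 := (div_mem_iff hL hn.ne (x - x')).2 h
      have e : (Ω * y.out / fR + Ω * x / (n : ℂ)) - (Ω * y.out / fR + Ω * x' / (n : ℂ)) =
          Ω * ((x - x' : RR) : ℂ) / (n : ℂ) := by
        push_cast
        ring
      rw [e]
      exact h1
  dist := by
    intro n c hn hc _ x
    have hc0 : (c : ℂ) ≠ 0 := coe_ne hc.ne
    have hn0 : (n : ℂ) ≠ 0 := coe_ne hn.ne
    have hf0 : (fR : ℂ) ≠ 0 := coe_ne fR_ne
    have h1 : ∑ t : RR ⧸ sp c, Gw Ω E (Ω * ((x + n * t.out : RR) : ℂ) / ((c * n : RR) : ℂ)) =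
        ∑ y : RR ⧸ sp fR, κ c * (e7 y.out * E (c * (Ω * y.out / fR) + Ω * x / (n : ℂ))) := by
      unfold Gw
      rw [Finset.sum_comm]
      refine Finset.sum_congr rfl fun y _ => ?_
      rw [← Finset.mul_sum]
      by_cases hy : y.out ∈ sp fR
      · rw [e7_eq_zero.2 hy]
        ring
      · have hcy : c * y.out ∉ sp fR := by
          intro h
          apply hy
          rw [Ideal.mem_span_singleton] at h ⊢
          exact hc.cop.dvd_of_dvd_mul_left h
        have h2 : (c : ℂ) * (Ω * y.out / fR + Ω * x / ((c * n : RR) : ℂ)) =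
            c * (Ω * y.out / fR) + Ω * x / (n : ℂ) := by
          push_cast
          field_simp
        have h3 : (c : ℂ) * (Ω * y.out / fR + Ω * x / ((c * n : RR) : ℂ)) ∉ L.lattice := by
          rw [h2]
          have h4 := pt_not_mem hL hn hcy x
          have h5 : Ω * ((c * y.out : RR) : ℂ) / fR = c * (Ω * y.out / fR) := by
            push_cast
            ring
          rw [h5] at h4
          exact h4
        have h4 := hE.dist c hc.ne _ h3
        rw [h2] at h4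
        have h5 : ∀ t : RR ⧸ sp c, Ω * y.out / fR + Ω * ((x + n * t.out : RR) : ℂ) / ((c * n : RR) : ℂ) =
            Ω * y.out / fR + Ω * x / ((c * n : RR) : ℂ) + Ω * t.out / c := by
          intro t
          push_cast
          field_simp
          ring
        rw [Finset.sum_congr rfl fun t _ => by rw [h5 t], h4]
        ring
    rw [h1, ← Finset.mul_sum, Gw_mul hL hE hc.cop hn x]
    ring

theorem de_Mk (hPAR : S_PAR) (hDIST : S_DIST) {q : ℂ} (hD : Dat L Ω q) (k : ℕ) :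
    DE L Ω (Mk L q k) (fun c => (c : ℂ) ^ (k + 1) * ((starRingEnd ℂ) (c : ℂ) ^ k)⁻¹) where
  per := by
    intro z w hz h
    unfold Mk
    rw [ek_per hD.per k hz h]
  dist := by
    intro c hc _ z hz
    unfold Mk
    rw [← Finset.mul_sum, hDIST hPAR L Ω (1 / 4) q hD.ld.lat hD.per k c hc z hz]
    ring

theorem t_WSUB : S_WSUB := by
  intro hPAR hDIST L Ω q hD _ k ι _ S π hS
  have hE := de_Mk hPAR hDIST hD k
  have hG := hE.dr hD.ld.lat
  have h1 := Bq_subsets hG Gd.one (φ := fun _ => 1) (fun _ _ _ => rfl) S hS (fun i _ m => by ring)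
  simp only [mul_one, one_mul] at h1
  simp only [Bw_eq_Bq]
  exact h1

end Pool.Agent.Q177.BKL
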